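import Pool.Agent.H85.AU.Targets

/-!
# MP_c9ef16_gt, board AU: module C16
-/

open CategoryTheory CategoryTheory.Limits TopologicalSpace Topology Set
open Pool.Agent.H96.AL Pool.Agent.H85.AU

universe w

namespace Pool.Agent.H74.AU

/-- C16 -/
theorem pf_C16 (hX16 : T_X16.{w}) (hC15 : T_C15.{w}) (hG14 : T_G14.{w}) (hGRC : T_GRC) :
    T_C16.{w} := by
  intro X _ _ _ C _ _ _ Z hZ hm t m hA N
  have hcon : ∀ j E, (∃ A, t.Con N A ∧ Nonempty (E ≅ t.ob (co hZ j) A)) → t.Con N E := by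
    rintro j E ⟨A, hcA, ⟨e⟩⟩
    exact t.con_iso N _ _ ⟨e.symm⟩ (t.con_cut N A j hcA)
  have key : ∀ k j, j + k = m →
      FinIso (fun E : C => ∃ A, t.Con N A ∧ Nonempty (E ≅ t.ob (co hZ j) A)) := by
    intro k
    induction k with
    | zero =>
      intro j hj
      have h1 : co hZ j = ⊥ := by
        apply Opens.ext
        show (Z j)ᶜ = ∅
        rw [show j = m from hj, hA.top, compl_univ]
      have hz : ∀ E : C, (∃ A, t.Con N A ∧ Nonempty (E ≅ t.ob (co hZ j) A)) → IsZero E := by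
        rintro E ⟨A, -, ⟨e⟩⟩
        rw [h1] at e
        exact (t.bot A).of_iso e
      by_cases hex : ∃ E : C, ∃ A, t.Con N A ∧ Nonempty (E ≅ t.ob (co hZ j) A)
      · obtain ⟨E, hE⟩ := hex
        refine ⟨{E}, finite_singleton E, ?_, fun A hSA => ⟨E, rfl, ⟨(hz A hSA).iso (hz E hE)⟩⟩⟩
        rintro P rfl
        exact hE
      · exact ⟨∅, finite_empty, fun P hP => absurd hP (notMem_empty P),
          fun A hSA => absurd ⟨A, hSA⟩ hex⟩
    | succ k ih =>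
      intro j hj
      refine hX16 C _ (fun G => t.Con N G ∧ t.Conc hZ j G) _ (ih (j + 1) (by omega))
        (hC15 X C Z hZ hm t m hA N j) ?_ ?_
      · intro G A hG hA'
        exact (hG14 X C Z hZ hm t m hA N G A hG.1 (hcon (j + 1) A hA')).2 1
      · rintro E ⟨A, hcA, ⟨e⟩⟩
        obtain ⟨hconc, S, hS, h1, h2, h3⟩ := hGRC X C t.toCutSys Z hZ hm j A
        refine ⟨S, hS, ⟨A, hcA, ⟨eqToIso h1⟩⟩, ?_, ⟨e ≪≫ eqToIso h2.symm⟩⟩
        rw [h3]
        exact ⟨t.con_gr N A j hcA, hconc⟩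
  have h0 : co hZ 0 = ⊤ := by
    apply Opens.ext
    show (Z 0)ᶜ = univ
    rw [hA.zero, compl_empty]
  obtain ⟨T, hTf, hTS, hT⟩ := key m 0 (Nat.zero_add m)
  refine ⟨T, hTf, fun P hP => hcon 0 P (hTS P hP), fun A hcA => hT A ⟨A, hcA, ?_⟩⟩
  rw [h0]
  exact ⟨(t.toCutSys.topI A).symm⟩

end Pool.Agent.H74.AU
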