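import Pool.Agent.H85.AU.Targets

/-!
# MP_c9ef16_gt, board AU: module G13
-/

open CategoryTheory CategoryTheory.Limits TopologicalSpace Topology Set
open Pool.Agent.H96.AL Pool.Agent.H85.AU

universe w

namespace Pool.Agent.H74.AU

lemma ext_zero_of_isZero {C : Type 1} [Category.{0} C] [Abelian C] [HasExt.{w} C] {A B : C}
    (hA : IsZero A) {n : ℕ} (α : Abelian.Ext.{w} A B n) : α = 0 := by
  rw [← Abelian.Ext.mk₀_id_comp α, hA.eq_of_src (𝟙 A) 0, Abelian.Ext.mk₀_zero,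
    Abelian.Ext.zero_comp]

lemma good_zero {X : Type} [TopologicalSpace X] {C : Type 1} [Category.{0} C] [Abelian C]
    [HasExt.{w} C] (c : CutSys X C) {A : C} (hA : IsZero A) (B : C) (x : X) :
    CutSys.Good.{w} c A B x := by
  intro n V hx
  refine ⟨V, hx, le_rfl, (finite_singleton (0 : Abelian.Ext.{w} (c.ob V A) B n)).subset ?_⟩
  rintro _ ⟨α, rfl⟩
  exact ext_zero_of_isZero (c.isZero_ob hA V) _

open ZeroObject in
/-- G13 -/
theorem pf_G13 (hCUT : T_CUT.{w}) (hPSH : T_PSH.{w}) (hGLC : T_GLC.{w}) (hG11 : T_G11.{w})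
    (hG12 : T_G12.{w}) (hMDB : T_MDB.{w}) (hPWR : T_PWR.{w}) : T_G13.{w} := by
  intro X _ _ _ C _ _ _ Z hZ hm t m hA N A B hcA hcB j hconc
  have h1 : ∀ x, x ∉ Z j → CutSys.Good.{w} t.toCutSys A B x := by
    intro x hx
    by_cases hx1 : x ∈ Z (j + 1)
    · obtain ⟨U, hxU, r, -, hiso⟩ := t.con_loc N A j hcA hconc x ⟨hx1, hx⟩
      have hS : (ShortComplex.mk (t.ep (co hZ (j + 1)) t.one)
          (cokernel.π (t.ep (co hZ (j + 1)) t.one)) (cokernel.condition _)).ShortExact :=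
        { exact := ShortComplex.exact_cokernel _
          mono_f := t.toCutSys.mono_ep _ _
          epi_g := inferInstance }
      have hQ : CutSys.Good.{w} t.toCutSys
          (cokernel (t.ep (co hZ (j + 1)) t.one)) B x :=
        hMDB X C t.toCutSys _ hS B x (hG12 X C Z hZ hm t m hA N B hcB (j + 1) x)
          (hG11 X C Z hZ hm t m hA N B hcB x)
      exact hGLC X C t.toCutSys A _ B x U hxU hiso (hPWR X C t.toCutSys _ B x hQ r)
    · refine hGLC X C t.toCutSys A (0 : C) B x (co hZ (j + 1)) hx1 ?_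
        (good_zero t.toCutSys (isZero_zero C) B x)
      exact ⟨hconc.zero.iso (t.toCutSys.isZero_ob (isZero_zero C) _)⟩
  intro x
  by_cases hx : x ∈ Z j
  · have h2 : CutSys.Good.{w} t.toCutSys (t.ob (co hZ j) A) B x := by
      intro n V hV
      obtain ⟨U, hxU, hUV, h, hf⟩ := hPSH X C Z hZ hm t m hA N A B hcA hcB j x hx h1 n V hV
      exact ⟨U, hxU, hUV, hCUT X C t.toCutSys A B n (co hZ j) U V hUV h hf⟩
    have h3 := hconc.iso
    refine hGLC X C t.toCutSys A (t.ob (co hZ j) A) B x ⊤ trivial ?_ h2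
    exact ⟨t.toCutSys.fmi ⊤ (asIso (t.ep (co hZ j) A)).symm⟩
  · exact h1 x hx

end Pool.Agent.H74.AU
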