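import Pool.Agent.H85.AU.Targets

/-!
# MP_c9ef16_gt, board AU: module M15
-/

open CategoryTheory CategoryTheory.Limits TopologicalSpace Topology Set
open Pool.Agent.H96.AL Pool.Agent.H85.AU

universe w

namespace Pool.Agent.H74.AU

/-- `A_U ≅ A_{U ∩ P}` if `A_P ≅ A` -/
noncomputable def isoInf {X : Type} [TopologicalSpace X] {C : Type 1} [Category.{0} C]
    [Abelian C] (c : CutSys X C) (A : C) (U P : Opens X) (h : IsIso (c.ep P A)) :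
    c.ob U A ≅ c.ob (U ⊓ P) A :=
  have := h
  have := c.isIso_mp_inf U P A
  have := c.isIso_fm_ep (inf_le_right : U ⊓ P ≤ P) A
  (c.fmi U (asIso (c.ep P A))).symm ≪≫
    (asIso (c.mp (inf_le_left : U ⊓ P ≤ U) (c.ob P A))).symm ≪≫
    asIso (c.fm (U ⊓ P) (c.ep P A))

/-- M15 -/
theorem pf_M15 (hCLC : T_CLC.{w}) (hG13 : T_G13.{w}) : T_M15.{w} := by
  intro X _ _ _ C _ _ _ Z hZ hm t m hA N j hloc x hx
  obtain ⟨U, hU, hxU, -, h, hh, K, hK, hKZ, hhK⟩ := hA.push j x hx univ isOpen_univ trivial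
  obtain ⟨O', hKO, hO', T, hTf, hTS, hT⟩ := hCLC X C t.toCutSys
    (fun A => t.Con N A ∧ t.Conc hZ j A) (co hZ j)
    (fun A B hSA hSB y _ => hG13 X C Z hZ hm t m hA N A B hSA.1 hSB.1 j hSA.2 y)
    (fun y hy => hloc y hy) K hK (fun y hy => (hKZ hy).2)
  refine ⟨⟨U, hU⟩, hxU, T, hTf, hTS, fun A hSA => ?_⟩
  obtain ⟨P, hP, hiso⟩ := hT A hSA
  refine ⟨P, hP, ?_⟩
  have hW : ((⟨U, hU⟩ ⊓ co hZ j : Opens X) : Set X) = U \ Z j := rfl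
  have hW' : ((co hZ j : Opens X) : Set X) = univ \ Z j := by
    rw [← compl_eq_univ_sdiff]
    rfl
  obtain ⟨e⟩ := t.sh2 N A P hSA.1 (hTS P hP).1 (⟨U, hU⟩ ⊓ co hZ j) (co hZ j) O' hO'
    inf_le_right h (by rw [hW, hW']; exact hh) (fun y hy => hKO (hhK y hy)) hiso
  exact ⟨isoInf t.toCutSys A ⟨U, hU⟩ (co hZ j) hSA.2.iso ≪≫ e ≪≫
    (isoInf t.toCutSys P ⟨U, hU⟩ (co hZ j) (hTS P hP).2.iso).symm⟩

end Pool.Agent.H74.AU
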